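import Pool.Agent.Helper824_hr.Main3

/-!
Horizontal rigidity in two variables: two scales different from one suffice.
-/

namespace Pool.Agent.Results.MP_7fe07c_an.TwoScales

open Set Pool.Helper824.HR

/-- Euclidean three-space -/
abbrev E3 := EuclideanSpace ℝ (Fin 3)

/-- the graph of a function of two variables -/
def graph3 (f : ℝ × ℝ → ℝ) : Set E3 := {p | p 2 = f (p 0, p 1)}

/-- `f` is horizontally rigid for `C` -/
def HRigid (C : Set ℝ) (f : ℝ × ℝ → ℝ) : Prop :=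
  ∀ c ∈ C, ∃ φ : E3 → E3, Isometry φ ∧ φ '' graph3 f = graph3 (fun q => f (c * q.1, c * q.2))

/-- affine functions of two variables -/
def IsAffine (f : ℝ × ℝ → ℝ) : Prop := ∃ a b d : ℝ, ∀ x y : ℝ, f (x, y) = a + b * x + d * y

/-- `C` generates a dense subgroup of the multiplicative group of positive reals -/
def GenDense (C : Set ℝ) : Prop :=
  Dense ((Subgroup.closure {x : {x : ℝ // 0 < x} | (x : ℝ) ∈ C} : Subgroup {x : ℝ // 0 < x}) :
    Set {x : ℝ // 0 < x})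

/-- the function whose zero set is the graph -/
noncomputable def FF (f : ℝ × ℝ → ℝ) (p : E3) : ℝ := p 2 - f (p 0, p 1)

/-- vertical unit vector -/
noncomputable def e3 : E3 := EuclideanSpace.single 2 1

theorem e3_norm : ‖e3‖ = 1 := by unfold e3; simp

theorem in_e3 (q : E3) : inner ℝ e3 q = q 2 := by
  unfold e3
  rw [EuclideanSpace.inner_single_left]; simp

theorem FF_gr {f : ℝ × ℝ → ℝ} (hf : Continuous f) : Gr e3 (FF f) := by
  constructor
  · unfold FF
    fun_prop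
  · intro p s
    unfold FF
    have h0 : (p + s • e3) 0 = p 0 := by simp [e3]
    have h1 : (p + s • e3) 1 = p 1 := by simp [e3]
    have h2 : (p + s • e3) 2 = p 2 + s := by simp [e3]
    rw [h0, h1, h2]; ring

theorem mem_graph (f : ℝ × ℝ → ℝ) (p : E3) : p ∈ graph3 f ↔ FF f p = 0 := by
  unfold FF
  change p 2 = f (p 0, p 1) ↔ _
  rw [sub_eq_zero]

theorem mem_graph_dl (f : ℝ × ℝ → ℝ) (c : ℝ) (p : E3) :
    p ∈ graph3 (fun q => f (c * q.1, c * q.2)) ↔ FF f (dl e3 c p) = 0 := by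
  have h0 : (dl e3 c p) 0 = c * p 0 := by unfold dl; simp [e3]
  have h1 : (dl e3 c p) 1 = c * p 1 := by unfold dl; simp [e3]
  have h2 : (dl e3 c p) 2 = p 2 := by
    unfold dl
    rw [in_e3]
    simp [e3]
    ring
  unfold FF
  rw [h0, h1, h2]
  change p 2 = f (c * p 0, c * p 1) ↔ _
  rw [sub_eq_zero]

/-- the dilation as a linear equivalence -/
noncomputable def dlE {c : ℝ} (hc : c ≠ 0) : E3 ≃L[ℝ] E3 :=
  LinearEquiv.toContinuousLinearEquiv
    { toFun := dl e3 c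
      map_add' := dl_add e3 c
      map_smul' := fun a v => dl_smul e3 c a v
      invFun := dl e3 c⁻¹
      left_inv := fun v => dl_inv' e3_norm hc v
      right_inv := fun v => dl_inv e3_norm hc v }

theorem dlE_apply {c : ℝ} (hc : c ≠ 0) (v : E3) : dlE hc v = dl e3 c v := rfl

theorem toHL {f : ℝ × ℝ → ℝ} {c : ℝ} (hc : 0 < c) {φ : E3 → E3} (hφ : Isometry φ)
    (h : φ '' graph3 f = graph3 (fun q => f (c * q.1, c * q.2))) : HL e3 (FF f) c := by
  let Φ : E3 →ᵃⁱ[ℝ] E3 := hφ.affineIsometryOfStrictConvexSpace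
  have hΦ : ∀ v, Φ v = φ v := fun v => rfl
  let A : E3 ≃ₗᵢ[ℝ] E3 := Φ.linearIsometry.toLinearIsometryEquiv rfl
  have hA : ∀ v, φ v = A v + φ 0 := by
    intro v
    have h1 := Φ.map_vadd 0 v
    rw [vadd_eq_add, vadd_eq_add, add_zero] at h1
    rw [← hΦ, ← hΦ, h1]
    rfl
  refine ⟨A, A.toContinuousLinearEquiv.trans (dlE hc.ne'), ⟨dl e3 c (φ 0), fun v => ?_⟩,
    fun v => rfl⟩
  have h2 : (A.toContinuousLinearEquiv.trans (dlE hc.ne')) v + dl e3 c (φ 0) =
      dl e3 c (φ v) := by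
    rw [hA v, dl_add]; rfl
  rw [h2, ← mem_graph, ← mem_graph_dl, ← h, hφ.injective.mem_set_image]

theorem two_scales {f : ℝ × ℝ → ℝ} (hf : Continuous f) {C : Set ℝ} (hC : C ⊆ Ioi 0)
    (h2 : ∃ c ∈ C, ∃ d ∈ C, c ≠ 1 ∧ d ≠ 1 ∧ c ≠ d) (hr : HRigid C f) : IsAffine f := by
  obtain ⟨c, hc, d, hd, hc1, hd1, hcd⟩ := h2
  obtain ⟨φ, hφ, hφg⟩ := hr c hc
  obtain ⟨ψ, hψ, hψg⟩ := hr d hd
  obtain ⟨m, k, hmk⟩ := main3 (by simp) (FF_gr hf) e3_norm (hC hc) (hC hd) hc1 hd1 hcd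
    (toHL (hC hc) hφ hφg) (toHL (hC hd) hψ hψg)
  refine ⟨-k, -(m 0), -(m 1), fun x y => ?_⟩
  have h := hmk !₂[x, y, 0]
  have h1 : inner ℝ m !₂[x, y, 0] = m 0 * x + m 1 * y := by
    rw [PiLp.inner_apply, Fin.sum_univ_three]
    simp
    ring
  rw [h1] at h
  unfold FF at h
  have h3 : (!₂[x, y, 0] : E3) 0 = x := rfl
  have h4 : (!₂[x, y, 0] : E3) 1 = y := rfl
  have h5 : (!₂[x, y, 0] : E3) 2 = 0 := rfl
  rw [h3, h4, h5] at h
  linarith

theorem two_or {C : Set ℝ} (hC : C ⊆ Ioi 0) :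
    (∃ c ∈ C, ∃ d ∈ C, c ≠ 1 ∧ d ≠ 1 ∧ c ≠ d) ∨ ∃ g : ℝ, 0 < g ∧ C ⊆ {1, g} := by
  by_cases h : ∃ c ∈ C, c ≠ 1
  · obtain ⟨c, hc, hc1⟩ := h
    by_cases h' : ∃ d ∈ C, d ≠ 1 ∧ c ≠ d
    · obtain ⟨d, hd, hd1, hcd⟩ := h'
      exact Or.inl ⟨c, hc, d, hd, hc1, hd1, hcd⟩
    · right
      push Not at h'
      refine ⟨c, hC hc, fun d hd => ?_⟩
      by_cases hd1 : d = 1
      · left; exact hd1
      · right; exact (h' d hd hd1).symm
  · right
    push Not at h
    exact ⟨1, one_pos, fun d hd => Or.inl (h d hd)⟩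

theorem not_dense {C : Set ℝ} {g : ℝ} (hg : 0 < g) (h : C ⊆ {1, g}) : ¬ GenDense C := by
  intro hd
  set g' : {x : ℝ // 0 < x} := ⟨g, hg⟩ with hg'
  have hle : Subgroup.closure {x : {x : ℝ // 0 < x} | (x : ℝ) ∈ C} ≤ Subgroup.zpowers g' := by
    rw [Subgroup.closure_le]
    intro x hx
    rcases h hx with h1 | h1
    · have : x = 1 := Subtype.ext h1
      rw [this]
      exact one_mem _
    · have : x = g' := Subtype.ext h1
      rw [this]
      exact Subgroup.mem_zpowers g'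
  obtain ⟨b, hb, hbn⟩ : ∃ b : ℝ, 0 < b ∧ ∀ n : ℤ, ¬ (0 < n * Real.log g ∧ n * Real.log g < b) := by
    by_cases h0 : Real.log g = 0
    · refine ⟨1, one_pos, fun n hn => ?_⟩
      rw [h0, mul_zero] at hn
      exact lt_irrefl _ hn.1
    · refine ⟨|Real.log g|, abs_pos.2 h0, fun n hn => ?_⟩
      have hn0 : n ≠ 0 := by
        intro h1
        rw [h1] at hn
        simp at hn
      have h2 : (1 : ℝ) ≤ |(n : ℝ)| := by
        have := Int.one_le_abs hn0
        exact_mod_cast this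
      have h3 : |(n : ℝ) * Real.log g| < |Real.log g| := by
        rw [abs_of_pos hn.1]; exact hn.2
      rw [abs_mul] at h3
      nlinarith [abs_nonneg (Real.log g)]
  have hU : IsOpen {x : {x : ℝ // 0 < x} | 0 < Real.log x ∧ Real.log x < b} :=
    (isOpen_lt continuous_const Real.continuous_log').inter
      (isOpen_lt Real.continuous_log' continuous_const)
  have hne : {x : {x : ℝ // 0 < x} | 0 < Real.log x ∧ Real.log x < b}.Nonempty := by
    refine ⟨⟨Real.exp (b / 2), Real.exp_pos _⟩, ?_⟩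
    constructor
    · simp only [Real.log_exp]; linarith
    · simp only [Real.log_exp]; linarith
  obtain ⟨x, hx, hxc⟩ := hd.inter_open_nonempty _ hU hne
  obtain ⟨n, hn⟩ := Subgroup.mem_zpowers_iff.1 (hle hxc)
  have h4 : (x : ℝ) = g ^ n := by
    rw [← hn]
    simp [hg']
  have h5 : Real.log x = n * Real.log g := by rw [h4, Real.log_zpow]
  apply hbn n
  rw [← h5]
  exact hx

/-- For each of the hypotheses (c), (a), (b) on `C`, every continuous function of two variables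
which is horizontally rigid for `C` is affine. -/
theorem result :
    (∀ C : Set ℝ, C ⊆ Ioi 0 → (∃ c ∈ C, ∃ d ∈ C, c ≠ 1 ∧ d ≠ 1 ∧ c ≠ d) →
      ∀ f : ℝ × ℝ → ℝ, Continuous f → HRigid C f → IsAffine f) ∧
    (∀ C : Set ℝ, C ⊆ Ioi 0 → ¬ C.Countable →
      ∀ f : ℝ × ℝ → ℝ, Continuous f → HRigid C f → IsAffine f) ∧
    (∀ C : Set ℝ, C ⊆ Ioi 0 → GenDense C →
      ∀ f : ℝ × ℝ → ℝ, Continuous f → HRigid C f → IsAffine f) := by
  refine ⟨fun C hC h2 f hf hr => two_scales hf hC h2 hr, fun C hC hu f hf hr => ?_,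
    fun C hC hd f hf hr => ?_⟩
  · rcases two_or hC with h | ⟨g, _, hg⟩
    · exact two_scales hf hC h hr
    · exact absurd (((countable_singleton g).insert 1).mono hg) hu
  · rcases two_or hC with h | ⟨g, hg0, hg⟩
    · exact two_scales hf hC h hr
    · exact absurd hd (not_dense hg0 hg)

end Pool.Agent.Results.MP_7fe07c_an.TwoScales
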